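import Pool.Agent.Zk42.PN.Fib
import Pool.Agent.Zk42.UG.G6
import Pool.Agent.Results.MP_90787a_nt.UnicriticalNumberFields

/-! Skew products over a base all of whose rational periodic points are fixed. -/

set_option autoImplicit false

namespace Pool.Agent.Zk42.PN

open Pool.Agent.Zk42.UC Finset MvPolynomial IsDedekindDomain NumberField
open scoped WithZero

/-- the degrees -/
def Deg (d : ℕ) : Prop := 5 ≤ d ∧ Odd d ∨ 7 ≤ d ∧ d % 3 = 1

section bound

variable (K : Type) [Field K] [NumberField K]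

lemma finite_ne_one {x : K} (hx : x ≠ 0) :
    {v : HeightOneSpectrum (𝓞 K) | v.valuation K x ≠ 1}.Finite := by
  obtain ⟨a, b, hb, rfl⟩ := IsFractionRing.div_surjective (A := 𝓞 K) x
  have hb0 : b ≠ 0 := nonZeroDivisors.ne_zero hb
  have ha0 : a ≠ 0 := by
    rintro rfl
    exact hx (by rw [map_zero, zero_div])
  refine ((finite_bad K a ha0).union (finite_bad K b hb0)).subset fun v hv => ?_
  by_contra hc
  simp only [Set.mem_union, Set.mem_ofPred_eq, not_or, not_not] at hc hv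
  apply hv
  rw [map_div₀, hc.1, hc.2, div_one]

/-- the uniform bound for a fixed leading coefficient -/
theorem uni_bound {d : ℕ} (hd : Deg d) {a : K} (ha : a ≠ 0) :
    ∃ N : ℕ, ∀ (b : K) (Z : Finset K), (∀ z ∈ Z, PP (fu a b d) z) → Z.card ≤ N := by
  have hfin := finite_ne_one K ha
  set S := {v : HeightOneSpectrum (𝓞 K) | v.valuation K a ≠ 1} with hS
  have hcond : ∀ n : ℕ, n ∣ d - 1 → ∀ b : K, CondK S a b d n := by
    intro n hn b v hv _ r _
    have hv1 : v.valuation K a = 1 := by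
      by_contra h
      exact hv h
    obtain ⟨k, hk⟩ := hn
    refine ⟨r ^ k, ?_⟩
    rw [hv1, one_mul, hk, ← pow_mul, Nat.mul_comm]
  rcases hd with ⟨h5, ho⟩ | ⟨h7, h3⟩
  · obtain ⟨B, hB⟩ := Pool.Agent.Zk42.UG.count_K h5 K S hfin
    obtain ⟨k, hk⟩ := ho
    exact ⟨B, fun b Z hZ => hB a b ha (hcond 2 ⟨k, by omega⟩ b) Z hZ⟩
  · rcases Nat.even_or_odd d with he | ho
    · obtain ⟨B, R, -, hB⟩ := main_K (n := 3) (d := d) sel3 (by omega)
        (fun L _ _ μ hμ T hT => rfin3 L (d := d) hμ (by omega) he T hT) K S hfin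
      exact ⟨B, fun b Z hZ => (hB a b ha (hcond 3 (by omega) b)).1 Z hZ⟩
    · obtain ⟨k, hk⟩ := ho
      obtain ⟨B, R, -, hB⟩ := main_K (n := 6) (d := d) sel6 (by omega)
        (fun L _ _ μ hμ T hT => rfin6 L (d := d) hμ (by omega) T hT) K S hfin
      exact ⟨B, fun b Z hZ => (hB a b ha (hcond 6 (by omega) b)).1 Z hZ⟩

/-- the roots of unity -/
lemma exists_U : ∃ U : Finset K, (0 : K) ∈ U ∧ ∀ (z : K) (k : ℕ), 0 < k → z ^ k = 1 → z ∈ U := by
  classical
  have hfin := NumberField.finite_setOfPred_logHeight₁_le K 0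
  refine ⟨insert 0 hfin.toFinset, mem_insert_self _ _, fun z k hk hz => mem_insert_of_mem ?_⟩
  rw [Set.Finite.mem_toFinset]
  show Height.logHeight₁ z ≤ 0
  have h1 := congrArg Height.logHeight₁ hz
  rw [Height.logHeight₁_pow, Height.logHeight₁_one] at h1
  have hk' : (0 : ℝ) < k := by exact_mod_cast hk
  rcases mul_eq_zero.1 h1 with h | h
  · linarith
  · exact h.le

end bound

section nrm

variable {K : Type} [Field K] [DecidableEq K] {M : ℕ}

/-- the indices of the nonvanishing coordinates -/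
def supp (x : Fin (M + 1) → K) : Finset (Fin (M + 1)) := univ.filter fun j => x j ≠ 0

lemma supp_ne {x : Fin (M + 1) → K} (hx : x ≠ 0) : (supp x).Nonempty := by
  obtain ⟨j, hj⟩ := Function.ne_iff.1 hx
  exact ⟨j, mem_filter.2 ⟨mem_univ _, hj⟩⟩

/-- the last nonvanishing coordinate -/
def lead (x : Fin (M + 1) → K) : K := if h : (supp x).Nonempty then x ((supp x).max' h) else 0

/-- normalised vector -/
def nrm (x : Fin (M + 1) → K) : Fin (M + 1) → K := (lead x)⁻¹ • x

lemma lead_ne {x : Fin (M + 1) → K} (hx : x ≠ 0) : lead x ≠ 0 := by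
  unfold lead
  rw [dif_pos (supp_ne hx)]
  have := (supp x).max'_mem (supp_ne hx)
  exact (mem_filter.1 this).2

lemma supp_smul {c : K} (hc : c ≠ 0) (x : Fin (M + 1) → K) : supp (c • x) = supp x := by
  unfold supp
  refine filter_congr fun j _ => ?_
  rw [Pi.smul_apply, smul_eq_mul]
  constructor
  · intro h h'
    exact h (by rw [h', mul_zero])
  · intro h
    exact mul_ne_zero hc h

lemma lead_smul {c : K} (hc : c ≠ 0) (x : Fin (M + 1) → K) : lead (c • x) = c * lead x := by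
  unfold lead
  have h := supp_smul hc x
  by_cases h1 : (supp x).Nonempty
  · have h2 : (supp (c • x)).Nonempty := by rwa [h]
    rw [dif_pos h1, dif_pos h2]
    simp only [h]
    rfl
  · have h2 : ¬ (supp (c • x)).Nonempty := by rwa [h]
    rw [dif_neg h1, dif_neg h2, mul_zero]

lemma nrm_smul {c : K} (hc : c ≠ 0) (x : Fin (M + 1) → K) : nrm (c • x) = nrm x := by
  unfold nrm
  rw [lead_smul hc, smul_smul, mul_inv, mul_right_comm, inv_mul_cancel₀ hc, one_mul]

lemma smul_nrm {x : Fin (M + 1) → K} (hx : x ≠ 0) : lead x • nrm x = x := by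
  unfold nrm
  rw [smul_smul, mul_inv_cancel₀ (lead_ne hx), one_smul]

lemma nrm_ne {x : Fin (M + 1) → K} (hx : x ≠ 0) : nrm x ≠ 0 :=
  smul_ne_zero (inv_ne_zero (lead_ne hx)) hx

lemma lead_nrm {x : Fin (M + 1) → K} (hx : x ≠ 0) : lead (nrm x) = 1 := by
  unfold nrm
  rw [lead_smul (inv_ne_zero (lead_ne hx)), inv_mul_cancel₀ (lead_ne hx)]

lemma nrm_eq {x : Fin (M + 1) → K} (h : lead x = 1) : nrm x = x := by
  unfold nrm
  rw [h, inv_one, one_smul]

lemma exists_one {x : Fin (M + 1) → K} (h : lead x = 1) : ∃ j, x j = 1 := by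
  unfold lead at h
  by_cases h1 : (supp x).Nonempty
  · rw [dif_pos h1] at h
    exact ⟨_, h⟩
  · rw [dif_neg h1] at h
    exact absurd h zero_ne_one

end nrm

section asm

variable {K : Type} [Field K] [NumberField K] {M m d : ℕ}

/-- the skew product -/
noncomputable def skew (φ : Fin (M + 1) → MvPolynomial (Fin (M + 1)) K)
    (G : Fin m → MvPolynomial (Fin (M + 1)) K) (d : ℕ) :
    Fin (M + 1) ⊕ Fin m → MvPolynomial (Fin (M + 1) ⊕ Fin m) K :=
  Sum.elim (fun i => rename Sum.inl (φ i)) fun j => X (Sum.inr j) ^ d + rename Sum.inl (G j)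

/-- at most `B` preperiodic rational points -/
def AtMost {K ι : Type} [Field K] (B : ℕ) (F : ι → MvPolynomial ι K) : Prop :=
  ∀ X : Finset (ι → K), (∀ x ∈ X, x ≠ 0) → (∀ x ∈ X, ∀ y ∈ X, ∀ c : K, x = c • y → x = y) →
    (∀ x ∈ X, Pre (K := K) (act F) x) → X.card ≤ B

omit [NumberField K] in
lemma act_skew (φ : Fin (M + 1) → MvPolynomial (Fin (M + 1)) K)
    (G : Fin m → MvPolynomial (Fin (M + 1)) K) (x : Fin (M + 1) ⊕ Fin m → K) :
    (act (skew φ G d) x ∘ Sum.inl, act (skew φ G d) x ∘ Sum.inr) =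
      sk (act φ) (fun x j => eval x (G j)) d (x ∘ Sum.inl, x ∘ Sum.inr) := by
  unfold sk act skew
  refine Prod.ext (funext fun i => ?_) (funext fun j => ?_)
  · show eval x (rename Sum.inl (φ i)) = eval (x ∘ Sum.inl) (φ i)
    exact eval_rename _ _ _
  · show eval x (X (Sum.inr j) ^ d + rename Sum.inl (G j)) =
      x (Sum.inr j) ^ d + eval (x ∘ Sum.inl) (G j)
    rw [map_add, map_pow, eval_X, eval_rename]

omit [NumberField K] in
lemma iter_skew (φ : Fin (M + 1) → MvPolynomial (Fin (M + 1)) K)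
    (G : Fin m → MvPolynomial (Fin (M + 1)) K) (x : Fin (M + 1) ⊕ Fin m → K) (n : ℕ) :
    ((act (skew φ G d))^[n] x ∘ Sum.inl, (act (skew φ G d))^[n] x ∘ Sum.inr) =
      (sk (act φ) (fun x j => eval x (G j)) d)^[n] (x ∘ Sum.inl, x ∘ Sum.inr) := by
  induction n with
  | zero => rfl
  | succ n ih => rw [Function.iterate_succ_apply', Function.iterate_succ_apply', ← ih, act_skew]

omit [NumberField K] in
/-- the skew product is an endomorphism -/
lemma mor_skew {φ : Fin (M + 1) → MvPolynomial (Fin (M + 1)) K}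
    {G : Fin m → MvPolynomial (Fin (M + 1)) K} (hd : 0 < d) (hφ : Mor φ)
    (hG : ∀ j, (G j).IsHomogeneous d) : Mor (skew φ G d) := by
  intro x hx
  have h1 : x ∘ Sum.inl = 0 := by
    apply hφ
    intro i
    have := hx (Sum.inl i)
    have e : (aeval x) (skew φ G d (Sum.inl i)) = aeval (x ∘ Sum.inl) (φ i) := by
      show (aeval x) (rename Sum.inl (φ i)) = _
      rw [aeval_rename]
    rwa [e] at this
  have h2 : ∀ j, x (Sum.inr j) = 0 := by
    intro j
    have := hx (Sum.inr j)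
    have e : (aeval x) (skew φ G d (Sum.inr j)) = x (Sum.inr j) ^ d + aeval (x ∘ Sum.inl) (G j) := by
      show (aeval x) (X (Sum.inr j) ^ d + rename Sum.inl (G j)) = _
      rw [map_add, map_pow, aeval_X, aeval_rename]
    have e2 : (aeval (x ∘ Sum.inl)) (G j) = 0 := by
      rw [h1]
      have h3 : (0 : Fin (M + 1) → AlgebraicClosure K) = fun _ => 0 := rfl
      rw [aeval_def, h3, eval₂_zero'_apply]
      have h4 : constantCoeff (G j) = 0 := by
        rw [constantCoeff_eq]
        exact (hG j).coeff_eq_zero (by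
          rw [map_zero]
          omega)
      rw [h4, map_zero]
    rw [e, e2, add_zero] at this
    exact eq_zero_of_pow_eq_zero this
  funext i
  rcases i with i | j
  · exact congrFun h1 i
  · exact h2 j

/-- the general form -/
theorem skew_gen (hd : Deg d) (K : Type) [Field K] [NumberField K] (M m B₀ : ℕ) (Λ : Finset K)
    :
    ∃ B : ℕ, ∀ φ : Fin (M + 1) → MvPolynomial (Fin (M + 1)) K, (∀ i, (φ i).IsHomogeneous d) →
      Mor φ → AtMost B₀ φ →
      (∀ x : Fin (M + 1) → K, x ≠ 0 → ∀ n : ℕ, 0 < n → (∃ c : K, (act φ)^[n] x = c • x) →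
        ∃ c : K, act φ x = c • x) →
      (∀ (x : Fin (M + 1) → K) (l : K), [DecidableEq K] → lead x = 1 → act φ x = l • x → l ∈ Λ) →
      ∀ G : Fin m → MvPolynomial (Fin (M + 1)) K, (∀ j, (G j).IsHomogeneous d) →
        AtMost B (skew φ G d) := by
  classical
  have hd2 : 2 ≤ d := by rcases hd with h | h <;> omega
  obtain ⟨U, hU0, hU⟩ := exists_U K
  have hN : ∀ l : K, ∃ N : ℕ, l ≠ 0 → ∀ (b : K) (Z : Finset K),
      (∀ z ∈ Z, PP (fu l⁻¹ b d) z) → Z.card ≤ N := by
    intro l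
    by_cases hl : l = 0
    · exact ⟨0, fun h => absurd hl h⟩
    · obtain ⟨N, h⟩ := uni_bound K hd (inv_ne_zero hl)
      exact ⟨N, fun _ => h⟩
  choose N hN using hN
  refine ⟨m * U.card ^ m + B₀ * ((d ^ m) ^ B₀ * (Λ.sup N) ^ m), ?_⟩
  intro φ hφh hφm hφB hper hlam G hG X hX0 hXp hX
  have hφs : ∀ (c : K) (x : Fin (M + 1) → K), act φ (c • x) = c ^ d • act φ x := act_smul hφh
  have hGs : ∀ (c : K) (x : Fin (M + 1) → K), (fun j => eval (c • x) (G j)) =
      c ^ d • fun j => eval x (G j) := fun c x => funext fun j => eval_hom (hG j) c x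
  have hfin := finite_pre hd2 hφh hφm
  set P : Finset (Fin (M + 1) → K) := hfin.toFinset.filter (fun x => lead x = 1) with hP
  have memP : ∀ w, w ∈ P ↔ lead w = 1 ∧ Pre (K := K) (act φ) w := by
    intro w
    rw [hP, mem_filter, Set.Finite.mem_toFinset]
    constructor
    · rintro ⟨⟨-, h1⟩, h2⟩
      exact ⟨h2, h1⟩
    · rintro ⟨h1, h2⟩
      exact ⟨⟨exists_one h1, h2⟩, h1⟩
  have hP0 : ∀ w ∈ P, w ≠ 0 := by
    rintro w hw rfl
    obtain ⟨j, hj⟩ := exists_one ((memP _).1 hw).1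
    exact zero_ne_one hj
  have hPcard : P.card ≤ B₀ := by
    refine hφB P hP0 ?_ fun w hw => ((memP w).1 hw).2
    intro x hx y hy c hc
    have hc0 : c ≠ 0 := by
      rintro rfl
      rw [zero_smul] at hc
      exact hP0 x hx hc
    have h1 := nrm_smul hc0 y
    rw [← hc, nrm_eq ((memP x).1 hx).1, nrm_eq ((memP y).1 hy).1] at h1
    exact h1
  have hcomp : ∀ x : Fin (M + 1) → K, x ≠ 0 → Pre (K := K) (act φ) x → ∃ w ∈ P, ∃ c : K, c ≠ 0 ∧
      x = c • w := by
    intro x hx hpre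
    refine ⟨nrm x, (memP _).2 ⟨lead_nrm hx, hpre.smul hφs (inv_ne_zero (lead_ne hx))⟩, lead x,
      lead_ne hx, (smul_nrm hx).symm⟩
  -- the base map on the representatives
  have hact : ∀ w : Fin (M + 1) → K, w ≠ 0 → act φ w ≠ 0 := fun w hw => act_ne hφm hw
  have hsk : ∀ (n : ℕ) (w : Fin (M + 1) → K), w ≠ 0 → ∃ s : K, s ≠ 0 ∧
      (act φ)^[n] w = s • (fun w => nrm (act φ w))^[n] w ∧
      (fun w => nrm (act φ w))^[n] w ≠ 0 := by
    intro n w hw
    induction n with
    | zero => exact ⟨1, one_ne_zero, by rw [one_smul]; rfl, hw⟩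
    | succ n ih =>
      obtain ⟨s, hs, h1, h2⟩ := ih
      refine ⟨s ^ d * lead (act φ ((fun w => nrm (act φ w))^[n] w)),
        mul_ne_zero (pow_ne_zero _ hs) (lead_ne (hact _ h2)), ?_, ?_⟩
      · rw [Function.iterate_succ_apply', Function.iterate_succ_apply', h1, hφs, mul_smul,
          smul_nrm (hact _ h2)]
      · rw [Function.iterate_succ_apply']
        exact nrm_ne (hact _ h2)
  have hperP : ∀ w ∈ P, ∀ n : ℕ, 0 < n → (fun w => nrm (act φ w))^[n] w = w →
      nrm (act φ w) = w := by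
    intro w hw n hn h
    obtain ⟨s, hs, h1, -⟩ := hsk n w (hP0 w hw)
    rw [h] at h1
    obtain ⟨c, hc⟩ := hper w (hP0 w hw) n hn ⟨s, h1⟩
    have hc0 : c ≠ 0 := by
      rintro rfl
      rw [zero_smul] at hc
      exact hact w (hP0 w hw) hc
    rw [hc, nrm_smul hc0, nrm_eq ((memP w).1 hw).1]
  have key := count_all (κ := Fin m) hd2 hφs (g := fun x j => eval x (G j)) hGs (N := Λ.sup N)
    (B₀ := B₀) U hU0 hU P hP0 hPcard hcomp (fun w => nrm (act φ w)) (fun w => lead (act φ w))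
    (fun w hw => (memP _).2 ⟨lead_nrm (hact w (hP0 w hw)),
      (((memP w).1 hw).2.map hφs).smul hφs (inv_ne_zero (lead_ne (hact w (hP0 w hw))))⟩)
    (fun w hw => lead_ne (hact w (hP0 w hw)))
    (fun w hw => (smul_nrm (hact w (hP0 w hw))).symm) hperP
    (fun w hw hfix b Z hZ => by
      have h1 := hlam w (lead (act φ w)) ((memP w).1 hw).1 (by
        have := smul_nrm (hact w (hP0 w hw))
        have hfix' : nrm (act φ w) = w := hfix
        rw [hfix'] at this
        exact this.symm)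
      exact (hN _ (lead_ne (hact w (hP0 w hw))) b Z hZ).trans (le_sup h1))
    (X.image fun x => (x ∘ Sum.inl, x ∘ Sum.inr))
  have hinj : Function.Injective (fun x : Fin (M + 1) ⊕ Fin m → K =>
      ((x ∘ Sum.inl, x ∘ Sum.inr) : (Fin (M + 1) → K) × (Fin m → K))) := by
    intro x y h
    have h1 : x ∘ Sum.inl = y ∘ Sum.inl := congrArg Prod.fst h
    have h2 : x ∘ Sum.inr = y ∘ Sum.inr := congrArg Prod.snd h
    funext i
    rcases i with i | j
    · exact congrFun h1 i
    · exact congrFun h2 j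
  rw [card_image_of_injective _ hinj, Fintype.card_fin] at key
  refine key ?_ ?_ ?_
  · intro p hp
    obtain ⟨x, hx, rfl⟩ := mem_image.1 hp
    intro h0
    apply hX0 x hx
    apply hinj
    exact h0
  · intro p hp q hq c h
    obtain ⟨x, hx, rfl⟩ := mem_image.1 hp
    obtain ⟨y, hy, rfl⟩ := mem_image.1 hq
    have h1 : x = c • y := by
      apply hinj
      exact h
    rw [hXp x hx y hy c h1]
  · intro p hp
    obtain ⟨x, hx, rfl⟩ := mem_image.1 hp
    obtain ⟨i, j, hij, c, hc, he⟩ := hX x hx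
    refine ⟨i, j, hij, c, hc, ?_⟩
    rw [← iter_skew, ← iter_skew, he]
    rfl

end asm

end Pool.Agent.Zk42.PN
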