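import Pool.Agent.Zk42.PN.North
import Pool.Agent.Zk42.UC.Loc

/-! Counting the preperiodic points of skew products over a base all of whose periodic points are
fixed. -/

set_option autoImplicit false

namespace Pool.Agent.Zk42.PN

open Pool.Agent.Zk42.UC Finset

section gen

variable {K V : Type} [Field K] [AddCommGroup V] [Module K V] {F : V → V} {d : ℕ}

lemma iter_smul (hF : ∀ (c : K) (x : V), F (c • x) = c ^ d • F x) (c : K) (x : V) (n : ℕ) :
    F^[n] (c • x) = c ^ d ^ n • F^[n] x := by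
  induction n with
  | zero => simp
  | succ n ih =>
    rw [Function.iterate_succ_apply', ih, hF, Function.iterate_succ_apply', ← pow_mul, ← pow_succ]

lemma Pre.smul (hF : ∀ (c : K) (x : V), F (c • x) = c ^ d • F x) {c : K} (hc : c ≠ 0) {x : V}
    (h : Pre (K := K) F x) : Pre (K := K) F (c • x) := by
  obtain ⟨m, n, hmn, e, he0, he⟩ := h
  refine ⟨m, n, hmn, c ^ d ^ n * e * (c ^ d ^ m)⁻¹,
    mul_ne_zero (mul_ne_zero (pow_ne_zero _ hc) he0) (inv_ne_zero (pow_ne_zero _ hc)), ?_⟩
  rw [iter_smul hF, iter_smul hF, he, smul_smul, smul_smul]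
  congr 1
  field_simp

lemma Pre.map (hF : ∀ (c : K) (x : V), F (c • x) = c ^ d • F x) {x : V}
    (h : Pre (K := K) F x) : Pre (K := K) F (F x) := by
  obtain ⟨m, n, hmn, e, he0, he⟩ := h
  refine ⟨m, n, hmn, e ^ d, pow_ne_zero _ he0, ?_⟩
  rw [← Function.iterate_succ_apply, ← Function.iterate_succ_apply, Function.iterate_succ_apply', he,
    hF, Function.iterate_succ_apply']

lemma map_zero_of (hd : 0 < d) (hF : ∀ (c : K) (x : V), F (c • x) = c ^ d • F x) : F 0 = 0 := by
  have := hF 0 0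
  rw [zero_smul, zero_pow hd.ne', zero_smul] at this
  exact this

end gen

section skew

variable {K E κ : Type} [Field K] [AddCommGroup E] [Module K E]

/-- the skew product -/
def sk (φ : E → E) (g : E → κ → K) (d : ℕ) (p : E × (κ → K)) : E × (κ → K) :=
  (φ p.1, fun i => p.2 i ^ d + g p.1 i)

variable {φ : E → E} {g : E → κ → K} {d : ℕ}

lemma sk_smul (hφ : ∀ (c : K) (x : E), φ (c • x) = c ^ d • φ x)
    (hg : ∀ (c : K) (x : E), g (c • x) = c ^ d • g x) (c : K) (p : E × (κ → K)) :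
    sk φ g d (c • p) = c ^ d • sk φ g d p := by
  unfold sk
  ext
  · exact hφ c p.1
  · show (c • p.2) _ ^ d + g (c • p.1) _ = c ^ d * (p.2 _ ^ d + g p.1 _)
    rw [hg, Pi.smul_apply, Pi.smul_apply, smul_eq_mul, smul_eq_mul]
    ring

omit [AddCommGroup E] [Module K E] in
lemma sk_fst (p : E × (κ → K)) (n : ℕ) : ((sk φ g d)^[n] p).1 = φ^[n] p.1 := by
  induction n with
  | zero => rfl
  | succ n ih =>
    rw [Function.iterate_succ_apply', Function.iterate_succ_apply', ← ih]
    rfl

lemma pre_fst {p : E × (κ → K)} (h : Pre (K := K) (sk φ g d) p) : Pre (K := K) φ p.1 := by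
  obtain ⟨m, n, hmn, c, hc, he⟩ := h
  refine ⟨m, n, hmn, c, hc, ?_⟩
  rw [← sk_fst (φ := φ) (g := g) (d := d), he, ← sk_fst (φ := φ) (g := g) (d := d)]
  rfl

/-- the points over a fixed point -/
lemma fibre_pp (hφ : ∀ (c : K) (x : E), φ (c • x) = c ^ d • φ x)
    (hg : ∀ (c : K) (x : E), g (c • x) = c ^ d • g x) {w : E} (hw : w ≠ 0) {l : K} (hl : l ≠ 0)
    (hfix : φ w = l • w) {y : κ → K} (h : Pre (K := K) (sk φ g d) (w, y)) (i : κ) :
    PP (fu l⁻¹ (l⁻¹ * g w i) d) (y i) := by
  have key : ∀ n : ℕ, ∃ s : K, s ≠ 0 ∧ (sk φ g d)^[n] (w, y) =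
      s • (w, fun j => (fu l⁻¹ (l⁻¹ * g w j) d)^[n] (y j)) := by
    intro n
    induction n with
    | zero => exact ⟨1, one_ne_zero, by rw [one_smul]; rfl⟩
    | succ n ih =>
      obtain ⟨s, hs, e⟩ := ih
      refine ⟨s ^ d * l, mul_ne_zero (pow_ne_zero _ hs) hl, ?_⟩
      rw [Function.iterate_succ_apply', e, sk_smul hφ hg, mul_smul]
      congr 1
      unfold sk
      ext j
      · exact hfix
      · show ((fu l⁻¹ (l⁻¹ * g w j) d)^[n] (y j)) ^ d + g w j =
          l * (fu l⁻¹ (l⁻¹ * g w j) d)^[n + 1] (y j)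
        rw [Function.iterate_succ_apply']
        show _ = l * (l⁻¹ * _ ^ d + l⁻¹ * g w j)
        rw [mul_add, mul_inv_cancel_left₀ hl, mul_inv_cancel_left₀ hl]
  obtain ⟨m, n, hmn, c, hc, he⟩ := h
  obtain ⟨s, hs, e1⟩ := key m
  obtain ⟨t, ht, e2⟩ := key n
  rw [e1, e2, smul_smul] at he
  have h1 : t • w = (c * s) • w := congrArg Prod.fst he
  have h2 : t = c * s := smul_left_injective K hw h1
  rw [← h2] at he
  have h3 := congrFun (congrArg Prod.snd he) i
  refine ⟨m, n, hmn, ?_⟩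
  exact (mul_left_cancel₀ ht h3).symm

variable [Fintype κ] [DecidableEq κ] [DecidableEq K] [DecidableEq E]

omit [DecidableEq E] in
lemma count_fixed (hφ : ∀ (c : K) (x : E), φ (c • x) = c ^ d • φ x)
    (hg : ∀ (c : K) (x : E), g (c • x) = c ^ d • g x) {N : ℕ} {w : E} (hw : w ≠ 0) {l : K}
    (hl : l ≠ 0) (hfix : φ w = l • w)
    (hB : ∀ (b : K) (Z : Finset K), (∀ z ∈ Z, PP (fu l⁻¹ b d) z) → Z.card ≤ N)
    (Y : Finset (κ → K)) (hY : ∀ y ∈ Y, Pre (K := K) (sk φ g d) (w, y)) :
    Y.card ≤ N ^ Fintype.card κ := by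
  have hsub : Y ⊆ Fintype.piFinset (fun i => Y.image (fun y => y i)) := by
    intro y hy
    rw [Fintype.mem_piFinset]
    exact fun i => mem_image_of_mem _ hy
  refine (card_le_card hsub).trans ?_
  rw [Fintype.card_piFinset]
  refine (prod_le_pow_card _ _ N fun i _ => ?_).trans (by rw [card_univ])
  refine hB (l⁻¹ * g w i) _ fun z hz => ?_
  obtain ⟨y, hy, rfl⟩ := mem_image.1 hz
  exact fibre_pp hφ hg hw hl hfix (hY y hy) i

omit [DecidableEq E] in
lemma count_tail (hd : 0 < d) (hφ : ∀ (c : K) (x : E), φ (c • x) = c ^ d • φ x)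
    (hg : ∀ (c : K) (x : E), g (c • x) = c ^ d • g x) {N : ℕ} (P : Finset E) (hP0 : ∀ w ∈ P, w ≠ 0)
    (nx : E → E) (l : E → K) (hnx : ∀ w ∈ P, nx w ∈ P) (hl : ∀ w ∈ P, l w ≠ 0)
    (hφl : ∀ w ∈ P, φ w = l w • nx w)
    (hB : ∀ w ∈ P, nx w = w → ∀ (b : K) (Z : Finset K), (∀ z ∈ Z, PP (fu (l w)⁻¹ b d) z) →
      Z.card ≤ N) (k : ℕ) : ∀ w ∈ P, nx (nx^[k] w) = nx^[k] w → ∀ (Y : Finset (κ → K)),
      (∀ y ∈ Y, Pre (K := K) (sk φ g d) (w, y)) →
      Y.card ≤ (d ^ Fintype.card κ) ^ k * N ^ Fintype.card κ := by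
  induction k with
  | zero =>
    intro w hw hfix Y hY
    rw [pow_zero, one_mul]
    have hfix' : nx w = w := hfix
    refine count_fixed hφ hg (hP0 w hw) (hl w hw) ?_ (hB w hw hfix') Y hY
    have := hφl w hw
    rwa [hfix'] at this
  | succ k ih =>
    intro w hw hfix Y hY
    rw [Function.iterate_succ_apply] at hfix
    set f : (κ → K) → (κ → K) := fun y i => (l w)⁻¹ * (y i ^ d + g w i) with hf
    have h1 : ∀ y ∈ Y, Pre (K := K) (sk φ g d) (nx w, f y) := by
      intro y hy
      have h2 := (hY y hy).map (sk_smul hφ hg)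
      have h3 := h2.smul (sk_smul hφ hg) (inv_ne_zero (hl w hw))
      have h4 : (l w)⁻¹ • sk φ g d (w, y) = (nx w, f y) := by
        unfold sk
        ext j
        · show (l w)⁻¹ • φ w = nx w
          rw [hφl w hw, smul_smul, inv_mul_cancel₀ (hl w hw), one_smul]
        · rfl
      rwa [h4] at h3
    have h5 := ih (nx w) (hnx w hw) hfix (Y.image f) (by
      intro z hz
      obtain ⟨y, hy, rfl⟩ := mem_image.1 hz
      exact h1 y hy)
    have h6 : Y.card ≤ d ^ Fintype.card κ * (Y.image f).card := by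
      refine card_le_mul_card_image _ _ fun z _ => ?_
      have hsub : Y.filter (fun y => f y = z) ⊆ Fintype.piFinset
          (fun i => (Polynomial.nthRoots d (l w * z i - g w i)).toFinset) := by
        intro y hy
        rw [mem_filter] at hy
        rw [Fintype.mem_piFinset]
        intro i
        rw [Multiset.mem_toFinset, Polynomial.mem_nthRoots hd, ← hy.2, hf]
        show y i ^ d = l w * ((l w)⁻¹ * (y i ^ d + g w i)) - g w i
        rw [mul_inv_cancel_left₀ (hl w hw), add_sub_cancel_right]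
      refine (card_le_card hsub).trans ?_
      rw [Fintype.card_piFinset]
      refine (prod_le_pow_card _ _ d fun i _ => ?_).trans (by rw [card_univ])
      exact (Multiset.toFinset_card_le _).trans (Polynomial.card_nthRoots _ _)
    calc Y.card ≤ d ^ Fintype.card κ * (Y.image f).card := h6
      _ ≤ d ^ Fintype.card κ * ((d ^ Fintype.card κ) ^ k * N ^ Fintype.card κ) := by gcongr
      _ = _ := by rw [pow_succ]; ring

/-- an orbit in a finite set arrives at a fixed point -/
lemma tail_len {α : Type*} [DecidableEq α] (P : Finset α) (nx : α → α) (hnx : ∀ w ∈ P, nx w ∈ P)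
    (hper : ∀ w ∈ P, ∀ n : ℕ, 0 < n → nx^[n] w = w → nx w = w) (w : α) (hw : w ∈ P) (m : ℕ)
    (hm : P.card ≤ m) : nx (nx^[m] w) = nx^[m] w := by
  have hmem : ∀ k, nx^[k] w ∈ P := by
    intro k
    induction k with
    | zero => exact hw
    | succ k ih => rw [Function.iterate_succ_apply']; exact hnx _ ih
  obtain ⟨i, hi, j, hj, hij, he⟩ := exists_ne_map_eq_of_card_lt_of_maps_to (s := range (m + 1))
    (t := P) (f := fun k => nx^[k] w) (by rw [card_range]; omega) (fun k _ => hmem k)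
  rw [mem_range] at hi hj
  have main : ∀ i j : ℕ, i < j → i ≤ m → nx^[i] w = nx^[j] w → nx (nx^[m] w) = nx^[m] w := by
    intro i j hij him he
    have h1 : nx^[j - i] (nx^[i] w) = nx^[i] w := by
      rw [← Function.iterate_add_apply, Nat.sub_add_cancel hij.le, he]
    have h2 := hper _ (hmem i) (j - i) (by omega) h1
    have h3 : nx^[m] w = nx^[i] w := by
      rw [← Nat.sub_add_cancel him, Function.iterate_add_apply]
      exact Function.iterate_fixed h2 _
    rw [h3, h2]
  rcases lt_or_gt_of_ne hij with h | h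
  · exact main i j h (by omega) he
  · exact main j i h (by omega) he.symm

/-- the count -/
theorem count_all (hd : 2 ≤ d) (hφ : ∀ (c : K) (x : E), φ (c • x) = c ^ d • φ x)
    (hg : ∀ (c : K) (x : E), g (c • x) = c ^ d • g x) {N B₀ : ℕ} (U : Finset K) (hU0 : (0 : K) ∈ U)
    (hU : ∀ (z : K) (k : ℕ), 0 < k → z ^ k = 1 → z ∈ U) (P : Finset E)
    (hP0 : ∀ w ∈ P, w ≠ 0) (hPB : P.card ≤ B₀)
    (hcomp : ∀ x : E, x ≠ 0 → Pre (K := K) φ x → ∃ w ∈ P, ∃ c : K, c ≠ 0 ∧ x = c • w)
    (nx : E → E) (l : E → K) (hnx : ∀ w ∈ P, nx w ∈ P) (hl : ∀ w ∈ P, l w ≠ 0)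
    (hφl : ∀ w ∈ P, φ w = l w • nx w)
    (hper : ∀ w ∈ P, ∀ n : ℕ, 0 < n → nx^[n] w = w → nx w = w)
    (hB : ∀ w ∈ P, nx w = w → ∀ (b : K) (Z : Finset K), (∀ z ∈ Z, PP (fu (l w)⁻¹ b d) z) →
      Z.card ≤ N) (X : Finset (E × (κ → K))) (hX0 : ∀ p ∈ X, p ≠ 0)
    (hXp : ∀ p ∈ X, ∀ q ∈ X, ∀ c : K, p = c • q → p = q)
    (hX : ∀ p ∈ X, Pre (K := K) (sk φ g d) p) :
    X.card ≤ Fintype.card κ * U.card ^ Fintype.card κ +
      B₀ * ((d ^ Fintype.card κ) ^ B₀ * N ^ Fintype.card κ) := by
  classical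
  have hd0 : 0 < d := by omega
  rw [← card_filter_add_card_filter_not (fun p : E × (κ → K) => p.1 = 0)]
  refine Nat.add_le_add ?_ ?_
  · -- the points with vanishing base coordinates
    have h1 : ∀ p ∈ X.filter (fun p => p.1 = 0), ∃ i : κ, p.2 i ≠ 0 := by
      intro p hp
      rw [mem_filter] at hp
      by_contra hc
      push Not at hc
      exact hX0 p hp.1 (Prod.ext hp.2 (funext hc))
    have hg0 : g 0 = 0 := by
      have := hg 0 0
      rw [zero_smul, zero_pow hd0.ne', zero_smul] at this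
      exact this
    have hit : ∀ (y : κ → K) (n : ℕ), (sk φ g d)^[n] (0, y) = (0, fun i => y i ^ d ^ n) := by
      intro y n
      induction n with
      | zero => simp
      | succ n ih =>
        rw [Function.iterate_succ_apply', ih]
        unfold sk
        ext i
        · exact map_zero_of hd0 hφ
        · show (y i ^ d ^ n) ^ d + g 0 i = y i ^ d ^ (n + 1)
          rw [hg0, Pi.zero_apply, add_zero, ← pow_mul, ← pow_succ]
    rcases (X.filter (fun p => p.1 = 0)).eq_empty_or_nonempty with he | ⟨p0, hp0⟩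
    · rw [he, card_empty]
      exact Nat.zero_le _
    obtain ⟨i00, -⟩ := h1 p0 hp0
    have : Nonempty κ := ⟨i00⟩
    choose! i0 hi0 using h1
    have hcard : (X.filter (fun p => p.1 = 0)).card ≤
        ((univ : Finset κ) ×ˢ Fintype.piFinset (fun _ : κ => U)).card := by
      refine card_le_card_of_injOn (fun p => (i0 p, fun i => p.2 i / p.2 (i0 p))) ?_ ?_
      · intro p hp
        have hp' := mem_filter.1 (mem_coe.1 hp)
        rw [coe_product, Set.mem_prod]
        refine ⟨mem_coe.2 (mem_univ _), mem_coe.2 (Fintype.mem_piFinset.2 fun i => ?_)⟩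
        show p.2 i / p.2 (i0 p) ∈ U
        by_cases hz : p.2 i = 0
        · rw [hz, zero_div]
          exact hU0
        obtain ⟨m, n, hmn, c, hc, he⟩ := hX p hp'.1
        have hp2 : p = (0, p.2) := Prod.ext hp'.2 rfl
        rw [hp2, hit, hit] at he
        have e1 : p.2 i ^ d ^ n = c * p.2 i ^ d ^ m := congrFun (congrArg Prod.snd he) i
        have e2 : p.2 (i0 p) ^ d ^ n = c * p.2 (i0 p) ^ d ^ m :=
          congrFun (congrArg Prod.snd he) (i0 p)
        have hi := hi0 p (mem_coe.1 hp)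
        have hlt : d ^ m < d ^ n := Nat.pow_lt_pow_right (by omega) hmn
        refine hU _ (d ^ n - d ^ m) (by omega) ?_
        have e3 : ∀ z : K, z ≠ 0 → z ^ d ^ n = c * z ^ d ^ m → z ^ (d ^ n - d ^ m) = c := by
          intro z hz h
          apply mul_right_cancel₀ (pow_ne_zero (d ^ m) hz)
          rw [← pow_add, Nat.sub_add_cancel hlt.le, h]
        rw [div_pow, e3 _ hz e1, e3 _ hi e2, div_self hc]
      · intro p hp q hq h
        have hp' := mem_filter.1 (mem_coe.1 hp)
        have hq' := mem_filter.1 (mem_coe.1 hq)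
        have h1 : i0 p = i0 q := congrArg Prod.fst h
        have h2 : ∀ i, p.2 i / p.2 (i0 p) = q.2 i / q.2 (i0 q) := fun i =>
          congrFun (congrArg Prod.snd h) i
        refine hXp p hp'.1 q hq'.1 (p.2 (i0 p) / q.2 (i0 q)) ?_
        refine Prod.ext ?_ (funext fun i => ?_)
        · show p.1 = _ • q.1
          rw [hp'.2, hq'.2, smul_zero]
        · show p.2 i = (p.2 (i0 p) / q.2 (i0 q)) * q.2 i
          have h3 := h2 i
          have h4 := hi0 p (mem_coe.1 hp)
          rw [div_eq_iff h4] at h3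
          rw [h3]
          ring
    refine hcard.trans ?_
    rw [card_product, Fintype.card_piFinset, prod_const, card_univ]
  · -- the points over the base
    have h1 : ∀ p ∈ X.filter (fun p => ¬ p.1 = 0), ∃ w ∈ P, ∃ c : K, c ≠ 0 ∧ p.1 = c • w := by
      intro p hp
      rw [mem_filter] at hp
      exact hcomp p.1 hp.2 (pre_fst (hX p hp.1))
    choose! w hwP c hc0 hpc using h1
    have h2 : (X.filter (fun p => ¬ p.1 = 0)).card ≤
        ((d ^ Fintype.card κ) ^ B₀ * N ^ Fintype.card κ) * P.card := by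
      refine card_le_mul_card_image_of_maps_to (f := w) hwP _ fun w0 hw0 => ?_
      have h3 : ((X.filter (fun p => ¬ p.1 = 0)).filter (fun p => w p = w0)).card ≤
          (((X.filter (fun p => ¬ p.1 = 0)).filter (fun p => w p = w0)).image
            (fun p => (c p)⁻¹ • p.2)).card := by
        rw [card_image_of_injOn]
        intro p hp q hq h
        rw [mem_coe, mem_filter] at hp hq
        have hp' := mem_filter.1 hp.1
        have hq' := mem_filter.1 hq.1
        have hcp := hc0 p hp.1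
        have hcq := hc0 q hq.1
        refine hXp p hp'.1 q hq'.1 (c p * (c q)⁻¹) ?_
        refine Prod.ext ?_ ?_
        · show p.1 = (c p * (c q)⁻¹) • q.1
          rw [hpc p hp.1, hpc q hq.1, hp.2, hq.2, smul_smul, inv_mul_cancel_right₀ hcq]
        · show p.2 = (c p * (c q)⁻¹) • q.2
          have h4 : (c p)⁻¹ • p.2 = (c q)⁻¹ • q.2 := h
          rw [mul_smul, ← h4, smul_smul, mul_inv_cancel₀ hcp, one_smul]
      refine h3.trans ?_
      refine count_tail hd0 hφ hg P hP0 nx l hnx hl hφl hB B₀ w0 hw0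
        (tail_len P nx hnx hper w0 hw0 B₀ hPB) _ ?_
      intro y hy
      obtain ⟨p, hp, rfl⟩ := mem_image.1 hy
      rw [mem_filter] at hp
      have hp' := mem_filter.1 hp.1
      have h4 := (hX p hp'.1).smul (sk_smul hφ hg) (inv_ne_zero (hc0 p hp.1))
      have h5 : (c p)⁻¹ • p = (w0, (c p)⁻¹ • p.2) := by
        refine Prod.ext ?_ rfl
        show (c p)⁻¹ • p.1 = w0
        rw [hpc p hp.1, smul_smul, inv_mul_cancel₀ (hc0 p hp.1), one_smul, hp.2]
      rwa [h5] at h4
    refine h2.trans ?_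
    rw [mul_comm]
    exact Nat.mul_le_mul_right _ hPB

end skew

end Pool.Agent.Zk42.PN
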