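import Pool.Agent.Zk42.PN.Asm

/-! The two cases of the theorem on skew products. -/

set_option autoImplicit false

namespace Pool.Agent.Zk42.PN

open Pool.Agent.Zk42.UC Finset MvPolynomial

/-- a fixed base -/
theorem skew_fixed {d : ℕ} (hd : Deg d) (K : Type) [Field K] [NumberField K] (M m : ℕ)
    (φ : Fin (M + 1) → MvPolynomial (Fin (M + 1)) K) (hφh : ∀ i, (φ i).IsHomogeneous d)
    (hφm : Mor φ)
    (hper : ∀ x : Fin (M + 1) → K, x ≠ 0 → ∀ n : ℕ, 0 < n → (∃ c : K, (act φ)^[n] x = c • x) →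
      ∃ c : K, act φ x = c • x) :
    ∃ B : ℕ, ∀ G : Fin m → MvPolynomial (Fin (M + 1)) K, (∀ j, (G j).IsHomogeneous d) →
      AtMost B (skew φ G d) := by
  classical
  have hd2 : 2 ≤ d := by rcases hd with h | h <;> omega
  have hφs : ∀ (c : K) (x : Fin (M + 1) → K), act φ (c • x) = c ^ d • act φ x := act_smul hφh
  have hfin := finite_pre hd2 hφh hφm
  set P : Finset (Fin (M + 1) → K) := hfin.toFinset with hP
  have hcard : AtMost P.card φ := by
    intro X hX0 hXp hX
    rw [← card_image_of_injOn (f := nrm) (s := X)]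
    · refine card_le_card fun y hy => ?_
      obtain ⟨x, hx, rfl⟩ := mem_image.1 hy
      rw [hP, Set.Finite.mem_toFinset]
      exact ⟨exists_one (lead_nrm (hX0 x hx)),
        (hX x hx).smul hφs (inv_ne_zero (lead_ne (hX0 x hx)))⟩
    · intro x hx y hy h
      refine hXp x hx y hy (lead x * (lead y)⁻¹) ?_
      have h' : nrm x = nrm y := h
      have hy0 : y ≠ 0 := hX0 y hy
      rw [mul_smul]
      show x = lead x • nrm y
      rw [← h', smul_nrm (hX0 x hx)]
  obtain ⟨B, hB⟩ := skew_gen (m := m) (M := M) hd K P.card (P.image fun w => lead (act φ w))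
  refine ⟨B, fun G hG => hB φ hφh hφm hcard hper ?_ G hG⟩
  intro x l inst hx hl
  have hdec : inst = (fun a b => Classical.propDecidable (a = b)) := Subsingleton.elim _ _
  subst hdec
  have hx0 : x ≠ 0 := by
    rintro rfl
    obtain ⟨j, hj⟩ := exists_one hx
    exact zero_ne_one hj
  have hl0 : l ≠ 0 := by
    rintro rfl
    rw [zero_smul] at hl
    exact act_ne hφm hx0 hl
  refine mem_image.2 ⟨x, ?_, ?_⟩
  · rw [hP, Set.Finite.mem_toFinset]
    exact ⟨exists_one hx, 0, 1, one_pos, l, hl0, hl⟩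
  · rw [hl, lead_smul hl0, hx, mul_one]

section uni

variable {K : Type} [Field K] {d : ℕ}

/-- the homogeneous form of `x ^ d + c` -/
noncomputable def bs (c : K) (d : ℕ) : Fin (1 + 1) → MvPolynomial (Fin (1 + 1)) K :=
  ![X 0 ^ d + C c * X 1 ^ d, X 1 ^ d]

lemma bs_hom (c : K) (i : Fin (1 + 1)) : (bs c d i).IsHomogeneous d := by
  have h : ∀ j : Fin (1 + 1), ((X j : MvPolynomial (Fin (1 + 1)) K) ^ d).IsHomogeneous d := by
    intro j
    have := (isHomogeneous_X K j).pow d
    rwa [one_mul] at this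
  fin_cases i
  · show (X 0 ^ d + C c * X 1 ^ d : MvPolynomial (Fin (1 + 1)) K).IsHomogeneous d
    refine (h 0).add ?_
    have := (isHomogeneous_C (Fin (1 + 1)) c).mul (h 1)
    rwa [zero_add] at this
  · exact h 1

lemma act_bs (c : K) (x : Fin (1 + 1) → K) : act (bs c d) x = ![x 0 ^ d + c * x 1 ^ d, x 1 ^ d] := by
  funext i
  fin_cases i
  · show eval x (X 0 ^ d + C c * X 1 ^ d) = x 0 ^ d + c * x 1 ^ d
    simp
  · show eval x (X 1 ^ d) = x 1 ^ d
    simp

lemma bs_mor (hd : 0 < d) (c : K) : Mor (bs c d) := by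
  intro x hx
  have h1 : x 1 = 0 := by
    have := hx 1
    have e : (aeval x) (bs c d 1) = x 1 ^ d := by
      show (aeval x) (X 1 ^ d) = x 1 ^ d
      simp
    rw [e] at this
    exact eq_zero_of_pow_eq_zero this
  have h0 : x 0 = 0 := by
    have := hx 0
    have e : (aeval x) (bs c d 0) = x 0 ^ d + algebraMap K (AlgebraicClosure K) c * x 1 ^ d := by
      show (aeval x) (X 0 ^ d + C c * X 1 ^ d) = _
      simp
    rw [e, h1, zero_pow hd.ne', mul_zero, add_zero] at this
    exact eq_zero_of_pow_eq_zero this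
  funext i
  fin_cases i
  · exact h0
  · exact h1

lemma vec_eq {x : Fin (1 + 1) → K} (h : x 1 ≠ 0) : x = x 1 • ![x 0 / x 1, 1] := by
  funext i
  fin_cases i
  · show x 0 = x 1 * (x 0 / x 1)
    field_simp
  · show x 1 = x 1 * 1
    rw [mul_one]

lemma iter_bs (c z : K) (n : ℕ) :
    (act (bs c d))^[n] ![z, 1] = ![(fu 1 c d)^[n] z, 1] := by
  induction n with
  | zero => rfl
  | succ n ih =>
    rw [Function.iterate_succ_apply', ih, act_bs, Function.iterate_succ_apply']
    funext i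
    fin_cases i
    · show ((fu 1 c d)^[n] z) ^ d + c * 1 ^ d = 1 * ((fu 1 c d)^[n] z) ^ d + c
      rw [one_pow, mul_one, one_mul]
    · show (1 : K) ^ d = 1
      exact one_pow d

lemma iter_bs' (_hd : 0 < d) (c : K) {x : Fin (1 + 1) → K} (h : x 1 ≠ 0) (n : ℕ) :
    (act (bs c d))^[n] x = (x 1) ^ d ^ n • ![(fu 1 c d)^[n] (x 0 / x 1), 1] := by
  rw [← iter_bs, ← iter_smul (act_smul (bs_hom c)), ← vec_eq h]

lemma pre_bs (hd : 0 < d) (c : K) {x : Fin (1 + 1) → K} (h : x 1 ≠ 0)
    (hx : Pre (K := K) (act (bs c d)) x) : PP (fu 1 c d) (x 0 / x 1) := by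
  obtain ⟨m, n, hmn, e, he0, he⟩ := hx
  rw [iter_bs' hd c h, iter_bs' hd c h, smul_smul] at he
  have h1 : x 1 ^ d ^ n * 1 = (e * x 1 ^ d ^ m) * 1 := congrFun he 1
  have h0 : x 1 ^ d ^ n * (fu 1 c d)^[n] (x 0 / x 1) =
    (e * x 1 ^ d ^ m) * (fu 1 c d)^[m] (x 0 / x 1) := congrFun he 0
  rw [mul_one, mul_one] at h1
  rw [← h1] at h0
  exact ⟨m, n, hmn, (mul_left_cancel₀ (pow_ne_zero _ h) h0).symm⟩

lemma bs_atMost [DecidableEq K] (hd : 0 < d) {N : ℕ} (c : K)
    (hN : ∀ Z : Finset K, (∀ z ∈ Z, PP (fu 1 c d) z) → Z.card ≤ N) : AtMost (N + 1) (bs c d) := by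
  intro X hX0 hXp hX
  rw [← card_filter_add_card_filter_not (fun x : Fin (1 + 1) → K => x 1 ≠ 0)]
  refine Nat.add_le_add ?_ ?_
  · rw [← card_image_of_injOn (f := fun x : Fin (1 + 1) → K => x 0 / x 1)]
    · refine hN _ fun z hz => ?_
      obtain ⟨x, hx, rfl⟩ := mem_image.1 hz
      rw [mem_filter] at hx
      exact pre_bs hd c hx.2 (hX x hx.1)
    · intro x hx y hy h
      rw [mem_coe, mem_filter] at hx hy
      refine hXp x hx.1 y hy.1 (x 1 * (y 1)⁻¹) ?_
      have h' : x 0 / x 1 = y 0 / y 1 := h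
      have e1 := vec_eq hx.2
      have e2 := vec_eq hy.2
      calc x = x 1 • ![x 0 / x 1, 1] := e1
        _ = (x 1 * (y 1)⁻¹) • (y 1 • ![y 0 / y 1, 1]) := by
          rw [h', smul_smul, inv_mul_cancel_right₀ hy.2]
        _ = _ := by rw [← e2]
  · rw [card_le_one]
    intro x hx y hy
    rw [mem_filter, not_not] at hx hy
    have hy0 : y 0 ≠ 0 := by
      intro h
      apply hX0 y hy.1
      funext i
      fin_cases i
      · exact h
      · exact hy.2
    refine hXp x hx.1 y hy.1 (x 0 / y 0) ?_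
    funext i
    fin_cases i
    · show x 0 = x 0 / y 0 * y 0
      rw [div_mul_cancel₀ _ hy0]
    · show x 1 = x 0 / y 0 * y 1
      rw [hx.2, hy.2, mul_zero]

lemma bs_per (hd : 0 < d) {c : K}
    (hc : ∀ (x : K) (n : ℕ), 0 < n → (fu 1 c d)^[n] x = x → fu 1 c d x = x)
    (x : Fin (1 + 1) → K) (n : ℕ) (hn : 0 < n)
    (h : ∃ e : K, (act (bs c d))^[n] x = e • x) : ∃ e : K, act (bs c d) x = e • x := by
  by_cases h1 : x 1 = 0
  · refine ⟨x 0 ^ (d - 1), ?_⟩
    rw [act_bs]
    funext i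
    fin_cases i
    · show x 0 ^ d + c * x 1 ^ d = x 0 ^ (d - 1) * x 0
      rw [h1, zero_pow hd.ne', mul_zero, add_zero, ← pow_succ, Nat.sub_add_cancel hd]
    · show x 1 ^ d = x 0 ^ (d - 1) * x 1
      rw [h1, zero_pow hd.ne', mul_zero]
  · obtain ⟨e, he⟩ := h
    rw [iter_bs' hd c h1] at he
    have e1 : x 1 ^ d ^ n * 1 = e * x 1 := congrFun he 1
    have e0 : x 1 ^ d ^ n * (fu 1 c d)^[n] (x 0 / x 1) = e * x 0 := congrFun he 0
    have hp := pow_ne_zero (d ^ n) h1
    have e2 : (fu 1 c d)^[n] (x 0 / x 1) = x 0 / x 1 := by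
      rw [eq_div_iff h1]
      apply mul_left_cancel₀ hp
      rw [← mul_assoc, e0]
      rw [mul_one] at e1
      rw [e1]
      ring
    have e3 := hc _ n hn e2
    refine ⟨x 1 ^ (d - 1), ?_⟩
    have e4 := iter_bs' hd c h1 1
    rw [Function.iterate_one, Function.iterate_one, e3, pow_one] at e4
    calc act (bs c d) x = x 1 ^ d • ![x 0 / x 1, 1] := e4
      _ = x 1 ^ (d - 1) • (x 1 • ![x 0 / x 1, 1]) := by
        rw [smul_smul, ← pow_succ, Nat.sub_add_cancel hd]
      _ = _ := by rw [← vec_eq h1]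

lemma bs_lead [DecidableEq K] (hd : 0 < d) (c : K) {x : Fin (1 + 1) → K} {l : K}
    (hx : lead x = 1) (h : act (bs c d) x = l • x) : l = 1 := by
  rw [act_bs] at h
  have h0 : x 0 ^ d + c * x 1 ^ d = l * x 0 := congrFun h 0
  have h1 : x 1 ^ d = l * x 1 := congrFun h 1
  by_cases hx1 : x 1 = 0
  · rw [hx1, zero_pow hd.ne', mul_zero, add_zero] at h0
    have hl : x 0 = 1 := by
      unfold lead at hx
      by_cases hs : (supp x).Nonempty
      · rw [dif_pos hs] at hx
        have hm := (mem_filter.1 ((supp x).max'_mem hs)).2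
        have : (supp x).max' hs = 0 := by
          by_contra hne
          have h2 : (supp x).max' hs = 1 := by
            rcases Fin.exists_fin_two.1 ⟨(supp x).max' hs, rfl⟩ with h3 | h3
            · exact absurd h3 hne
            · exact h3
          rw [h2] at hm
          exact hm hx1
        rw [this] at hx
        exact hx
      · rw [dif_neg hs] at hx
        exact absurd hx zero_ne_one
    rw [hl, one_pow, mul_one] at h0
    exact h0.symm
  · have hl : x 1 = 1 := by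
      have hmem : (1 : Fin (1 + 1)) ∈ supp x := mem_filter.2 ⟨mem_univ _, hx1⟩
      unfold lead at hx
      rw [dif_pos ⟨1, hmem⟩] at hx
      have : (supp x).max' ⟨1, hmem⟩ = 1 := by
        refine le_antisymm ?_ (le_max' _ _ hmem)
        exact Fin.le_last _
      rw [this] at hx
      exact hx
    rw [hl, one_pow, mul_one] at h1
    exact h1.symm

end uni

/-- a moving base -/
theorem skew_moving {d : ℕ} (hd : Deg d) (K : Type) [Field K] [NumberField K] (m : ℕ) :
    ∃ B : ℕ, ∀ c : K, (∀ (x : K) (n : ℕ), 0 < n → (fu 1 c d)^[n] x = x → fu 1 c d x = x) →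
      ∀ G : Fin m → MvPolynomial (Fin (1 + 1)) K, (∀ j, (G j).IsHomogeneous d) →
      AtMost B (skew (bs c d) G d) := by
  classical
  have hd0 : 0 < d := by rcases hd with h | h <;> omega
  obtain ⟨N, hN⟩ := uni_bound K hd one_ne_zero
  obtain ⟨B, hB⟩ := skew_gen (m := m) (M := 1) hd K (N + 1) {1}
  refine ⟨B, fun c hc G hG => hB (bs c d) (bs_hom c) (bs_mor hd0 c) (bs_atMost hd0 c (hN c))
    (fun x _ n hn h => bs_per hd0 hc x n hn h) ?_ G hG⟩
  intro x l inst hx hl
  rw [mem_singleton]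
  exact bs_lead hd0 c hx hl

end Pool.Agent.Zk42.PN
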