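import Mathlib

/-! The preperiodic points of an endomorphism of projective space over a number field: finiteness
(Northcott). -/

set_option autoImplicit false

namespace Pool.Agent.Zk42.PN

open MvPolynomial Height

section

variable {K : Type} [Field K] {ι : Type}

/-- the map on vectors -/
noncomputable def act (φ : ι → MvPolynomial ι K) (x : ι → K) : ι → K := fun i => eval x (φ i)

/-- the forms have no common zero but the origin -/
def Mor (φ : ι → MvPolynomial ι K) : Prop :=
  ∀ x : ι → AlgebraicClosure K, (∀ i, aeval x (φ i) = 0) → x = 0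

/-- preperiodic up to scaling -/
def Pre {V : Type} [SMul K V] (F : V → V) (x : V) : Prop :=
  ∃ m n : ℕ, m < n ∧ ∃ c : K, c ≠ 0 ∧ F^[n] x = c • F^[m] x

lemma eval_hom {p : MvPolynomial ι K} {d : ℕ} (hp : p.IsHomogeneous d) (c : K) (x : ι → K) :
    eval (c • x) p = c ^ d * eval x p := by
  rw [eval_eq, eval_eq, Finset.mul_sum]
  refine Finset.sum_congr rfl fun m hm => ?_
  have h1 : m.degree = d := by
    have := hp (mem_support_iff.1 hm)
    rw [Finsupp.degree_eq_weight_one]
    exact this
  have h2 : ∏ i ∈ m.support, (c • x) i ^ m i = c ^ d * ∏ i ∈ m.support, x i ^ m i := by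
    have h3 : m.degree = ∑ i ∈ m.support, m i := rfl
    rw [← h1, h3, ← Finset.prod_pow_eq_pow_sum, ← Finset.prod_mul_distrib]
    refine Finset.prod_congr rfl fun i _ => ?_
    rw [Pi.smul_apply, smul_eq_mul, mul_pow]
  rw [h2]
  ring

lemma act_smul {φ : ι → MvPolynomial ι K} {d : ℕ} (hφ : ∀ i, (φ i).IsHomogeneous d) (c : K)
    (x : ι → K) : act φ (c • x) = c ^ d • act φ x := by
  funext i
  exact eval_hom (hφ i) c x

lemma hc_mul {p q : MvPolynomial ι K} {d : ℕ} (hp : p.IsHomogeneous d) (M : ℕ) :
    homogeneousComponent (M + d) (q * p) = homogeneousComponent M q * p := by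
  induction q using MvPolynomial.induction_on' with
  | monomial ν a =>
    have h1 : (monomial ν a * p).IsHomogeneous (ν.degree + d) :=
      (isHomogeneous_monomial a rfl).mul hp
    rw [homogeneousComponent_of_mem h1, homogeneousComponent_of_mem (isHomogeneous_monomial a rfl)]
    by_cases h : M = ν.degree
    · rw [if_pos (by rw [h]), if_pos h]
    · rw [if_neg (by omega), if_neg h, zero_mul]
  | add q₁ q₂ h₁ h₂ => rw [add_mul, map_add, map_add, h₁, h₂, add_mul]

variable [Fintype ι]

lemma act_ne {φ : ι → MvPolynomial ι K} (h : Mor φ) {x : ι → K} (hx : x ≠ 0) : act φ x ≠ 0 := by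
  intro h0
  apply hx
  have h1 := h (fun i => algebraMap K (AlgebraicClosure K) (x i)) (by
    intro i
    have h2 : (aeval fun i => algebraMap K (AlgebraicClosure K) (x i)) (φ i) =
        algebraMap K (AlgebraicClosure K) (eval x (φ i)) := by
      have h3 := aeval_algebraMap_apply (AlgebraicClosure K) x (φ i)
      refine Eq.trans h3 ?_
      simp [aeval_eq_eval]
    rw [h2]
    have h3 : eval x (φ i) = 0 := congrFun h0 i
    rw [h3, map_zero])
  funext i
  have h2 := congrFun h1 i
  exact (map_eq_zero _).1 h2

/-- Nullstellensatz -/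
lemma null [DecidableEq ι] {φ : ι → MvPolynomial ι K} {d : ℕ} (hφ : ∀ i, (φ i).IsHomogeneous d)
    (h : Mor φ) : ∃ (M : ℕ) (q : ι × ι → MvPolynomial ι K), (∀ a, (q a).IsHomogeneous M) ∧
      ∀ k, ∑ j, q (k, j) * φ j = X k ^ (M + d) := by
  classical
  have h1 : ∀ i : ι, (X i : MvPolynomial ι K) ∈ (Ideal.span (Set.range φ)).radical := by
    intro i
    rw [← vanishingIdeal_zeroLocus_eq_radical (K := AlgebraicClosure K) (Ideal.span (Set.range φ)),
      mem_vanishingIdeal_iff]
    intro x hx
    have hx0 : x = 0 := by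
      apply h
      intro j
      exact mem_zeroLocus_iff.1 hx (φ j) (Ideal.subset_span ⟨j, rfl⟩)
    simp [hx0]
  choose m hm using fun i => Ideal.mem_radical_iff.1 (h1 i)
  set M := ∑ i, m i with hM
  have h2 : ∀ k : ι, ∃ q : ι → MvPolynomial ι K, ∑ j, q j * φ j = X k ^ (M + d) := by
    intro k
    have hle : m k ≤ M + d := (Finset.single_le_sum (f := m) (fun _ _ => Nat.zero_le _)
      (Finset.mem_univ k)).trans (Nat.le_add_right _ _)
    have h3 : (X k : MvPolynomial ι K) ^ (M + d) ∈ Ideal.span (Set.range φ) := by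
      rw [← Nat.sub_add_cancel hle, pow_add]
      exact Ideal.mul_mem_left _ _ (hm k)
    exact Ideal.mem_span_range_iff_exists_fun.1 h3
  choose q hq using h2
  refine ⟨M, fun a => homogeneousComponent M (q a.1 a.2), fun a =>
    homogeneousComponent_isHomogeneous _ _, fun k => ?_⟩
  have h4 := congrArg (homogeneousComponent (M + d)) (hq k)
  rw [map_sum] at h4
  have h5 : (homogeneousComponent (M + d)) ((X k : MvPolynomial ι K) ^ (M + d)) =
      X k ^ (M + d) := by
    have h6 : ((X k : MvPolynomial ι K) ^ (M + d)).IsHomogeneous (M + d) := by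
      have := (isHomogeneous_X K k).pow (M + d)
      rwa [one_mul] at this
    rw [homogeneousComponent_of_mem h6, if_pos rfl]
  rw [h5] at h4
  rw [← h4]
  refine Finset.sum_congr rfl fun j _ => ?_
  rw [hc_mul (hφ j)]

end

section height

open Real

variable {K : Type} [Field K] [NumberField K] {ι : Type} [Fintype ι]

/-- finiteness of the set of the preperiodic points, normalised -/
theorem finite_pre {φ : ι → MvPolynomial ι K} {d : ℕ} (hd : 2 ≤ d)
    (hφ : ∀ i, (φ i).IsHomogeneous d) (h : Mor φ) :
    {x : ι → K | (∃ j, x j = 1) ∧ Pre (K := K) (act φ) x}.Finite := by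
  classical
  obtain ⟨M, q, hq, hqφ⟩ := null hφ h
  obtain ⟨C, hC⟩ := logHeight_eval_ge' (K := K) (N := d) hq
  have hstep : ∀ x : ι → K, C + d * logHeight x ≤ logHeight (act φ x) := by
    intro x
    refine hC φ fun k => ?_
    have h1 := congrArg (eval x) (hqφ k)
    rw [map_sum, map_pow, eval_X] at h1
    rw [← h1]
    exact Finset.sum_congr rfl fun j _ => (map_mul _ _ _).symm
  have hd1 : (2 : ℝ) ≤ d := by exact_mod_cast hd
  have hbd : ∀ x : ι → K, Pre (K := K) (act φ) x → logHeight x ≤ |C| := by
    intro x hx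
    by_contra hc
    push Not at hc
    obtain ⟨m, n, hmn, c, hc0, he⟩ := hx
    have h1 : ∀ k : ℕ, |C| < logHeight ((act φ)^[k] x) := by
      intro k
      induction k with
      | zero => exact hc
      | succ k ih =>
        rw [Function.iterate_succ_apply']
        have h2 := hstep ((act φ)^[k] x)
        have h3 := neg_abs_le C
        have h4 := abs_nonneg C
        nlinarith
    have h2 : StrictMono (fun k => logHeight ((act φ)^[k] x)) := by
      apply strictMono_nat_of_lt_succ
      intro k
      show logHeight ((act φ)^[k] x) < logHeight ((act φ)^[k + 1] x)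
      rw [Function.iterate_succ_apply']
      have h2 := hstep ((act φ)^[k] x)
      have h3 := neg_abs_le C
      have h4 := h1 k
      have h5 := abs_nonneg C
      nlinarith
    have h3 : logHeight ((act φ)^[m] x) < logHeight ((act φ)^[n] x) := h2 hmn
    rw [he, logHeight_smul_eq_logHeight _ hc0] at h3
    exact lt_irrefl _ h3
  have hfin := NumberField.finite_setOfPred_logHeight₁_le K |C|
  refine (Set.Finite.pi' (fun _ : ι => hfin)).subset ?_
  rintro x ⟨⟨j, hj⟩, hx⟩ i
  show logHeight₁ (x i) ≤ |C|
  rw [logHeight₁_eq_logHeight]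
  have h1 : ![x i, 1] = x ∘ ![i, j] := by
    funext l
    fin_cases l
    · rfl
    · exact hj.symm
  rw [h1]
  exact (logHeight_comp_le _ _).trans (hbd x hx)

end height

end Pool.Agent.Zk42.PN
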